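import Mathlib
import Pool.Agent.N818.SN.Stm
import Pool.Agent.N873.UT.Stm

/-!
# Project IL (helper818): simultaneous laws for the curves 2-isogenous to `y² = x (x - n a²) (x - n b²)`

`u`, `v` are coprime, one of them odd, the other one even, `u v ≠ 0`; `δ = u² - v²`. The quotient of
`EQ n u v : y² = x (x - n u²) (x - n v²)` by the point `(n u², 0)` is
`WI n u v : y² = x³ - 2 n (2 u² - v²) x² + (n v²)² x`, the curve `WZ a b` of `Z702` with `a = aI n u v`,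
`b = bI n v`; `a² - 4 b = 16 n² u² δ`. The isogenous curve `Y² = X (X² - 2 a X + a² - 4 b)` is
`Y² = X (X + 4 n δ) (X + 4 n u²)`; its points of order two have the classes `δ`, `-n δ`, `-n`.
Statements of the parts; they are independent of each other.
-/

set_option autoImplicit false

open scoped Classical

namespace Pool.Agent.N818.IL

open Finset WeierstrassCurve Filter
open Pool.Agent.Z702 (LocI WZ)
open Pool.Agent.N818.SN (LK)
open Pool.Agent.N873.UT (EQ Pr NF)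
open Pool.Agent.N969.P15 (Qc)

/-- the coefficient `a` -/
def aI (n u v : ℤ) : ℤ := -2 * n * (2 * u ^ 2 - v ^ 2)

/-- the coefficient `b` -/
def bI (n v : ℤ) : ℤ := (n * v ^ 2) ^ 2

/-- the number whose prime factors are bad -/
def bd (u v : ℤ) : ℤ := 2 * u * v * (u ^ 2 - v ^ 2)

/-- IL-IN: necessity at the primes not dividing `2 u v (u² - v²)` (see `N163/SN/LocEF.lean`, `core`) -/
def S_IN : Prop := ∀ (p : ℕ) [Fact p.Prime] (n u v d : ℤ), ¬ (p : ℤ) ∣ bd u v →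
  Squarefree n → Squarefree d → LK ℚ_[p] (aI n u v) (bI n v) d →
  (¬ (p : ℤ) ∣ n → ¬ (p : ℤ) ∣ d) ∧
  ((p : ℤ) ∣ n → IsSquare ((u ^ 2 - v ^ 2 : ℤ) : ZMod p) →
    (¬ (p : ℤ) ∣ d → IsSquare (d : ZMod p)) ∧
    ∀ n' d' : ℤ, n = p * n' → d = p * d' → IsSquare ((-n' * d' : ℤ) : ZMod p))

/-- IL-IS: sufficiency at the primes not dividing `2 u v (u² - v²)` -/
def S_IS : Prop := ∀ (p : ℕ) [Fact p.Prime] (n u v d : ℤ), ¬ (p : ℤ) ∣ bd u v →
  Squarefree n → Squarefree d →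
  (¬ (p : ℤ) ∣ n → ¬ (p : ℤ) ∣ d → LocI ℚ_[p] (aI n u v) (bI n v) d) ∧
  ((p : ℤ) ∣ n → ¬ IsSquare ((u ^ 2 - v ^ 2 : ℤ) : ZMod p) → LocI ℚ_[p] (aI n u v) (bI n v) d) ∧
  (¬ (p : ℤ) ∣ d → IsSquare (d : ZMod p) → LocI ℚ_[p] (aI n u v) (bI n v) d) ∧
  ∀ n' d' : ℤ, n = p * n' → d = p * d' → IsSquare ((-n' * d' : ℤ) : ZMod p) →
    LocI ℚ_[p] (aI n u v) (bI n v) d

/-- IL-ISQ: squares are classes of points near the origin: `X = d r²` large -/
def S_ISQ : Prop := ∀ a b d : ℤ, d ≠ 0 →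
  (∀ (p : ℕ) [Fact p.Prime], IsSquare (d : ℚ_[p]) → LocI ℚ_[p] a b d) ∧ (0 < d → LocI ℝ a b d)

/-- IL-IT: the points of order two are the only points of order a power of two: `(e, 0)` is twice a
point only if the differences `e - e'` of the roots are squares -/
def S_IT : Prop := ∀ n a b : ℤ, Squarefree n → 1 < n → a ≠ 0 → b ≠ 0 → a ^ 2 ≠ b ^ 2 →
  Finite (EQ n a b).toAffine.Point → ∃ k : ℕ, Odd k ∧ Nat.card (EQ n a b).toAffine.Point = 4 * k

/-- the condition at the primes of `R` on `d = e ∏ q ∈ J, q` -/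
def CI (e : ℤ) (P R J : Finset ℕ) : Prop := ∀ p ∈ R,
  (p ∉ J → IsSquare ((e * ∏ q ∈ J, (q : ℤ) : ℤ) : ZMod p)) ∧
  (p ∈ J → IsSquare ((-(∏ q ∈ P.erase p, (q : ℤ)) * (e * ∏ q ∈ J.erase p, (q : ℤ)) : ℤ) : ZMod p))

/-- IL-IU: the number of the sets. The set for `e` is empty or in bijection with that for `e = 1`
(symmetric differences). `e = 1`, `R` all the primes: `∏ J ∈ SB n` if it is `1` modulo `4`, so there are at most
two sets (`Qc n` gives `SB n ⊆ {1, -n}`, see `N873.UT.S_CB`, `Fin.lean`; or see the counts of helper73 and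
helper507 for `N818.SN.S_JC`); each prime removed from `R` gives a factor of at most two. -/
def S_IU : Prop := ∀ n : ℕ, Squarefree n → n % 8 = 3 → Qc n → ∀ (R : Finset ℕ) (e : ℤ),
  R ⊆ n.primeFactors → (∀ p ∈ R, ¬ (p : ℤ) ∣ e) →
  (n.primeFactors.powerset.filter fun J => CI e n.primeFactors R J).card ≤
    2 ^ ((n.primeFactors \ R).card + 1)

/-- IL-ILO: the pigeonhole principle for the values of the quadratic symbols and `∏ J` modulo `m`;
the symmetric differences of the sets of one box -/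
def S_ILO : Prop := ∀ (P Q R : Finset ℕ) (m : ℕ), (∀ p ∈ P, p.Prime ∧ p ≠ 2) → 0 < m →
  Q ⊆ P → R ⊆ Q → (∀ q ∈ Q, ¬ q ∣ m) →
  2 ^ Q.card ≤ m * 2 ^ R.card *
    (Q.powerset.filter fun J => CI 1 P R J ∧ IsSquare ((∏ q ∈ J, q : ℕ) : ZMod m)).card

/-- the mean value modulo `M` -/
noncomputable def mn (M : ℕ) (h : ℕ → ℝ) : ℝ :=
  (∑ a ∈ (range M).filter fun a => Nat.Coprime a M, h a) / (Nat.totient M : ℝ)

/-- the Gaussian law for the squarefree numbers in the classes of `K` modulo `M` -/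
def Law (M : ℕ) (K : Finset ℕ) : Prop := ∀ (h : ℕ → ℝ) (t : ℝ), (∀ p, h (p % M) = h p) →
  0 < mn M (fun a => h a ^ 2) → Tendsto (fun X : ℕ =>
  (((Icc 1 X).filter fun n => (Squarefree n ∧ n % M ∈ K) ∧
    ∑ p ∈ n.primeFactors, h p ≤ mn M h * Real.log (Real.log X) +
      t * √(mn M (fun a => h a ^ 2) * Real.log (Real.log X))).card : ℝ) /
  (((Icc 1 X).filter fun n => Squarefree n ∧ n % M ∈ K).card : ℝ)) atTop
  (nhds ((ProbabilityTheory.gaussianReal 0 1).real (Set.Iic t)))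

/-- IL-GLM: one class prime to the modulus. Adapt `N160/SN` (`Sq`, `Main`, `Lim`) and `N558/SN/GL4.lean`
(`mer24`, `law_gen`, `gauss_gen`), where `M = 24` and the class is `11`. -/
def S_GLM : Prop := ∀ M r : ℕ, 8 ∣ M → 0 < M → r < M → Nat.Coprime r M → Law M {r}

/-- IL-GLK: from the classes prime to the modulus to all the classes. A squarefree `n ≡ r` is `g m` with
`g = gcd (r, M)`, `m` squarefree and prime to `M`, in one of finitely many classes. -/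
def S_GLK : Prop := ∀ (M : ℕ) (K : Finset ℕ), 8 ∣ M → 0 < M →
  (∀ r < M, Nat.Coprime r M → Law M {r}) → K.Nonempty →
  (∀ r ∈ K, r < M ∧ ∃ n : ℕ, Squarefree n ∧ n % M = r ∧ n % 2 = 1) → Law M K

/-- IL-CHI: the quadratic symbols modulo `M` -/
def S_CHI : Prop := ∀ (M : ℕ) (d : ℤ), d ≠ 0 → 0 < M → (4 * d) ∣ M →
  (∀ p : ℕ, p.Prime → ¬ p ∣ M → (¬ IsSquare (d : ZMod p) ↔ jacobiSym d (p % M) = -1)) ∧
  ∀ d' : ℤ, d' ≠ 0 → (4 * d') ∣ M → ¬ IsSquare (d * d') →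
    ∑ a ∈ (range M).filter (fun a => Nat.Coprime a M), jacobiSym d a * jacobiSym d' a = 0

/-- the modulus -/
def MF (F : Finset (ℤ × ℤ)) : ℕ :=
  8 * ∏ c ∈ F, (c.1 * c.2 * (c.1 ^ 2 - c.2 ^ 2)).natAbs

/-- the residues -/
noncomputable def KF (F : Finset (ℤ × ℤ)) : Finset ℕ :=
  (range (MF F)).filter fun r => ∃ n ∈ NF F, n % MF F = r

/-- IL-NFK: the set `NF F` of helper873 as a set of residue classes -/
def S_NFK : Prop := ∀ F : Finset (ℤ × ℤ), (∀ c ∈ F, Pr c) →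
  0 < MF F ∧ (∀ n : ℕ, n ∈ NF F ↔ Squarefree n ∧ n % MF F ∈ KF F) ∧ (KF F).Nonempty ∧
  ∀ r ∈ KF F, r < MF F ∧ r % 8 = 3 ∧ ∃ n : ℕ, Squarefree n ∧ n % MF F = r ∧ n % 2 = 1

end Pool.Agent.N818.IL
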