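import Pool.Agent.N818.IL.Law

/-!
# IL: the mean values of the sums of the quadratic symbols
-/

set_option autoImplicit false

open scoped Classical

namespace Pool.Agent.N818.IL

open Finset

/-- `1` if the symbol is `-1` -/
noncomputable def xn (M : ℕ) (d : ℤ) (p : ℕ) : ℝ := if jacobiSym d (p % M) = -1 then 1 else 0

lemma xn_per (M : ℕ) (d : ℤ) (p : ℕ) : xn M d (p % M) = xn M d p := by
  unfold xn
  rw [Nat.mod_mod]

lemma xn_val {M : ℕ} {d : ℤ} (h : 4 * d ∣ M) {a : ℕ} (ha : a < M) (hc : Nat.Coprime a M) :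
    xn M d a = (1 - (jacobiSym d a : ℝ)) / 2 := by
  have h1 : jacobiSym d a = 1 ∨ jacobiSym d a = -1 := by
    have h2 : Int.gcd d a = 1 := by
      have h3 : d.natAbs ∣ M := by
        have h4 : d ∣ (M : ℤ) := (Dvd.intro_left 4 rfl).trans h
        exact Int.natAbs_dvd_natAbs.2 h4
      have h5 : Nat.Coprime d.natAbs a := (Nat.Coprime.coprime_dvd_right h3 hc).symm
      exact h5
    exact jacobiSym.eq_one_or_neg_one h2
  unfold xn
  rw [Nat.mod_eq_of_lt ha]
  rcases h1 with h1 | h1 <;> rw [h1] <;> norm_num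

lemma mn_lin {M : ℕ} {ι : Type} (I : Finset ι) (w : ι → ℝ) (f : ι → ℕ → ℝ) :
    mn M (fun a => ∑ i ∈ I, w i * f i a) = ∑ i ∈ I, w i * mn M (f i) := by
  unfold mn
  rw [sum_comm, sum_div]
  refine sum_congr rfl fun i _ => ?_
  rw [← mul_sum, mul_div_assoc]

lemma mn_congr {M : ℕ} {f g : ℕ → ℝ} (h : ∀ a < M, Nat.Coprime a M → f a = g a) : mn M f = mn M g := by
  unfold mn
  congr 1
  refine sum_congr rfl fun a ha => ?_
  obtain ⟨h1, h2⟩ := mem_filter.1 ha
  exact h a (mem_range.1 h1) h2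

lemma mn_const {M : ℕ} (hM : 0 < M) (c : ℝ) : mn M (fun _ => c) = c := by
  unfold mn
  have h1 : ((range M).filter fun a => Nat.Coprime a M).card = Nat.totient M := by
    rw [Nat.totient]
    congr 1
    refine filter_congr fun a _ => ?_
    exact Nat.coprime_comm
  rw [sum_const, nsmul_eq_mul, h1]
  have h2 : (Nat.totient M : ℝ) ≠ 0 := by
    exact_mod_cast (Nat.totient_pos.2 hM).ne'
  field_simp

/-- the mean value of the product of two symbols -/
lemma mn_jac (hCHI : S_CHI) {M : ℕ} (hM : 0 < M) {d d' : ℤ} (h0 : d ≠ 0) (h0' : d' ≠ 0) (h : 4 * d ∣ M)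
    (h' : 4 * d' ∣ M) (hn : ¬ IsSquare (d * d')) :
    mn M (fun a => (jacobiSym d a : ℝ) * jacobiSym d' a) = 0 := by
  have h1 := (hCHI M d h0 hM h).2 d' h0' h' hn
  unfold mn
  have h2 : ∑ a ∈ (range M).filter (fun a => Nat.Coprime a M), (jacobiSym d a : ℝ) * jacobiSym d' a =
      ((∑ a ∈ (range M).filter (fun a => Nat.Coprime a M), jacobiSym d a * jacobiSym d' a : ℤ) : ℝ) := by
    push_cast
    rfl
  rw [h2, h1]
  simp

lemma mn_one (hCHI : S_CHI) {M : ℕ} (hM : 0 < M) {d : ℤ} (h0 : d ≠ 0) (h : 4 * d ∣ M)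
    (hn : ¬ IsSquare d) : mn M (fun a => (jacobiSym d a : ℝ)) = 0 := by
  have h4 : (4 * (1 : ℤ)) ∣ M := by
    rw [mul_one]
    exact (Dvd.intro d rfl).trans h
  have h1 := mn_jac hCHI hM h0 one_ne_zero h h4 (by rwa [mul_one])
  rw [← h1]
  refine mn_congr fun a _ _ => ?_
  rw [jacobiSym.one_left]
  simp

lemma mn_sq {M : ℕ} (hM : 0 < M) {d : ℤ} (h : 4 * d ∣ M) :
    mn M (fun a => (jacobiSym d a : ℝ) * jacobiSym d a) = 1 := by
  have h1 := mn_const hM 1
  rw [← h1]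
  refine mn_congr fun a ha hc => ?_
  have h2 := xn_val h ha hc
  have h3 : jacobiSym d a = 1 ∨ jacobiSym d a = -1 := by
    have h2 : Int.gcd d a = 1 := by
      have h3 : d.natAbs ∣ M := by
        have h4 : d ∣ (M : ℤ) := (Dvd.intro_left 4 rfl).trans h
        exact Int.natAbs_dvd_natAbs.2 h4
      have h5 : Nat.Coprime d.natAbs a := (Nat.Coprime.coprime_dvd_right h3 hc).symm
      exact h5
    exact jacobiSym.eq_one_or_neg_one h2
  rcases h3 with h3 | h3 <;> rw [h3] <;> norm_num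

section

variable {ι : Type} (I : Finset ι) (d : ι → ℤ) (w : ι → ℝ) {M : ℕ}

/-- the weighted sum of the symbols -/
noncomputable def hh (M : ℕ) (p : ℕ) : ℝ := ∑ i ∈ I, w i * xn M (d i) p

lemma hh_per (p : ℕ) : hh I d w M (p % M) = hh I d w M p := by
  unfold hh
  exact sum_congr rfl fun i _ => by rw [xn_per]

variable (hCHI : S_CHI) (hM : 0 < M) (hd0 : ∀ i ∈ I, d i ≠ 0) (hd4 : ∀ i ∈ I, 4 * d i ∣ (M : ℤ))
  (hds : ∀ i ∈ I, ¬ IsSquare (d i)) (hdd : ∀ i ∈ I, ∀ j ∈ I, i ≠ j → ¬ IsSquare (d i * d j))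

include hCHI hM hd0 hd4 hds

/-- the mean value -/
theorem mn_hh : mn M (hh I d w M) = (∑ i ∈ I, w i) / 2 := by
  have h1 : mn M (hh I d w M) = ∑ i ∈ I, w i * mn M (xn M (d i)) := mn_lin I w _
  rw [h1, sum_div]
  refine sum_congr rfl fun i hi => ?_
  have h2 : mn M (xn M (d i)) = 1 / 2 := by
    have h3 : mn M (xn M (d i)) = mn M (fun a => ∑ k ∈ (univ : Finset (Fin 2)),
        (![1 / 2, -1 / 2] : Fin 2 → ℝ) k * (![fun _ => 1, fun a => (jacobiSym (d i) a : ℝ)] :
          Fin 2 → ℕ → ℝ) k a) := by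
      refine mn_congr fun a ha hc => ?_
      rw [xn_val (hd4 i hi) ha hc, Fin.sum_univ_two]
      simp
      ring
    rw [h3, mn_lin, Fin.sum_univ_two]
    simp only [Matrix.cons_val_zero, Matrix.cons_val_one]
    rw [mn_const hM, mn_one hCHI hM (hd0 i hi) (hd4 i hi) (hds i hi)]
    ring
  rw [h2]
  ring

include hdd

/-- the second moment -/
theorem mn_hh2 : mn M (fun a => hh I d w M a ^ 2) =
    ((∑ i ∈ I, w i) ^ 2 + ∑ i ∈ I, w i ^ 2) / 4 := by
  have h1 : mn M (fun a => hh I d w M a ^ 2) = mn M (fun a => ∑ ij ∈ I ×ˢ I, (w ij.1 * w ij.2) *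
      (xn M (d ij.1) a * xn M (d ij.2) a)) := by
    refine mn_congr fun a _ _ => ?_
    unfold hh
    rw [sq, sum_mul_sum, sum_product]
    refine sum_congr rfl fun i _ => sum_congr rfl fun j _ => ?_
    ring
  have h2 : ∀ i ∈ I, ∀ j ∈ I, mn M (fun a => xn M (d i) a * xn M (d j) a) =
      if i = j then 1 / 2 else 1 / 4 := by
    intro i hi j hj
    have h3 : mn M (fun a => xn M (d i) a * xn M (d j) a) = mn M (fun a => ∑ k ∈ (univ : Finset (Fin 4)),
        (![1 / 4, -1 / 4, -1 / 4, 1 / 4] : Fin 4 → ℝ) k *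
          (![fun _ => 1, fun a => (jacobiSym (d i) a : ℝ), fun a => (jacobiSym (d j) a : ℝ),
            fun a => (jacobiSym (d i) a : ℝ) * jacobiSym (d j) a] : Fin 4 → ℕ → ℝ) k a) := by
      refine mn_congr fun a ha hc => ?_
      rw [xn_val (hd4 i hi) ha hc, xn_val (hd4 j hj) ha hc, Fin.sum_univ_four]
      simp
      ring
    rw [h3, mn_lin, Fin.sum_univ_four]
    simp only [Matrix.cons_val]
    rw [mn_const hM, mn_one hCHI hM (hd0 i hi) (hd4 i hi) (hds i hi),
      mn_one hCHI hM (hd0 j hj) (hd4 j hj) (hds j hj)]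
    by_cases hij : i = j
    · subst hij
      rw [mn_sq hM (hd4 i hi), if_pos rfl]
      norm_num
    · rw [mn_jac hCHI hM (hd0 i hi) (hd0 j hj) (hd4 i hi) (hd4 j hj) (hdd i hi j hj hij),
        if_neg hij]
      norm_num
  rw [h1, mn_lin, sum_product]
  have h4 : ∀ i ∈ I, ∑ j ∈ I, w i * w j * mn M (fun a => xn M (d i) a * xn M (d j) a) =
      w i * (∑ j ∈ I, w j) / 4 + w i ^ 2 / 4 := by
    intro i hi
    have h5 : ∀ j ∈ I, w i * w j * mn M (fun a => xn M (d i) a * xn M (d j) a) =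
        w i * w j / 4 + (if i = j then w i * w j / 4 else 0) := by
      intro j hj
      rw [h2 i hi j hj]
      split_ifs <;> ring
    rw [sum_congr rfl h5, sum_add_distrib, sum_ite_eq, if_pos hi, ← sum_div, ← mul_sum]
    ring
  rw [sum_congr rfl h4, sum_add_distrib, ← sum_div, ← sum_div, ← sum_mul]
  ring

end

end Pool.Agent.N818.IL
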