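import Pool.Agent.N818.IL.Str
import Pool.Agent.N818.IL.Mom

/-!
# IL: all the curves together
-/

set_option autoImplicit false
set_option linter.style.haveILetI false

open scoped Classical

namespace Pool.Agent.N818.IL

open Finset Filter WeierstrassCurve
open Pool.Agent.TH841.SH.D (Sha)
open Pool.Agent.Z702 (LocI WZ)
open Pool.Agent.N969.P15 (Qc)
open Pool.Agent.N916.GB (eta)
open Pool.Agent.N818.SN (S_TR S_AMF loglog_top)
open Pool.Agent.N873.UT (EQ Em Adm Triv NF Pr triv_iff)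

/-- the parts -/
structure Parts : Prop where
  IN : S_IN
  IS : S_IS
  ISQ : S_ISQ
  IT : S_IT
  IU : S_IU
  ILO : S_ILO
  GLM : S_GLM
  GLK : S_GLK
  CHI : S_CHI
  NFK : S_NFK
  TR : S_TR
  AMF : S_AMF
  UT : Pool.Agent.N873.UT.Parts

/-- the index of a curve: a pair and a point of order two -/
abbrev Ix : Type := (ℤ × ℤ) × Bool

/-- the first number -/
def uI (i : Ix) : ℤ := if i.2 then i.1.1 else i.1.2

/-- the second number -/
def vI (i : Ix) : ℤ := if i.2 then i.1.2 else i.1.1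

/-- the discriminant -/
def dI (i : Ix) : ℤ := uI i ^ 2 - vI i ^ 2

/-- the 2-primary part of `Ш` -/
abbrev S2 (i : Ix) (n : ℕ) : Type :=
  {x : Sha (WZ (aI n (uI i) (vI i)) (bI n (vI i))) // ∃ k : ℕ, 2 ^ k • x = 0}

/-- the logarithm of its order -/
noncomputable def lS (i : Ix) (n : ℕ) : ℝ := Real.logb 2 (Nat.card (S2 i n))

lemma pr_ne {c : ℤ × ℤ} (hc : Pr c) : c.1 ≠ 0 ∧ c.2 ≠ 0 ∧ c.1 ^ 2 - c.2 ^ 2 ≠ 0 := by
  obtain ⟨-, h1, h2, h3⟩ := hc
  refine ⟨by omega, h3, fun h => ?_⟩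
  have h4 : c.1 ^ 2 % 2 = 1 := by
    rw [sq, Int.mul_emod, h1]
    norm_num
  have h5 : c.2 ^ 2 % 2 = 0 := by
    rw [sq, Int.mul_emod, h2]
    norm_num
  omega

lemma bd_ne {i : Ix} (hc : Pr i.1) : bd (uI i) (vI i) ≠ 0 := by
  obtain ⟨h1, h2, h3⟩ := pr_ne hc
  unfold bd uI vI
  split_ifs
  · exact mul_ne_zero (mul_ne_zero (mul_ne_zero (by norm_num) h1) h2) h3
  · refine mul_ne_zero (mul_ne_zero (mul_ne_zero (by norm_num) h2) h1) ?_
    intro h
    apply h3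
    linarith

lemma dI_ne {i : Ix} (hc : Pr i.1) : dI i ≠ 0 := by
  obtain ⟨h1, h2, h3⟩ := pr_ne hc
  unfold dI uI vI
  split_ifs
  · exact h3
  · intro h
    apply h3
    linarith

lemma dI_dvd {F : Finset (ℤ × ℤ)} {i : Ix} (hi : i.1 ∈ F) : 4 * dI i ∣ (MF F : ℤ) := by
  have h1 : (i.1.1 * i.1.2 * (i.1.1 ^ 2 - i.1.2 ^ 2)).natAbs ∣
      ∏ c ∈ F, (c.1 * c.2 * (c.1 ^ 2 - c.2 ^ 2)).natAbs :=
    dvd_prod_of_mem (fun c : ℤ × ℤ => (c.1 * c.2 * (c.1 ^ 2 - c.2 ^ 2)).natAbs) hi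
  have h2 : dI i ∣ i.1.1 * i.1.2 * (i.1.1 ^ 2 - i.1.2 ^ 2) := by
    unfold dI uI vI
    split_ifs
    · exact Dvd.intro_left _ rfl
    · exact ⟨-(i.1.1 * i.1.2), by ring⟩
  have h3 : dI i ∣ ((∏ c ∈ F, (c.1 * c.2 * (c.1 ^ 2 - c.2 ^ 2)).natAbs : ℕ) : ℤ) :=
    (Int.dvd_natAbs.2 h2).trans (by exact_mod_cast h1)
  unfold MF
  push_cast at h3 ⊢
  obtain ⟨k, hk⟩ := h3
  exact ⟨2 * k, by rw [hk]; ring⟩

variable (P : Parts)

include P

/-- the facts for one curve -/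
theorem one {F : Finset (ℤ × ℤ)} {n : ℕ} (hn : n ∈ NF F) (hQ : Qc n) {i : Ix} (hi : i.1 ∈ F) :
    Finite (WZ (aI n (uI i) (vI i)) (bI n (vI i))).toAffine.Point ∧ Finite (S2 i n) ∧
    (∀ x : Sha (WZ (aI n (uI i) (vI i)) (bI n (vI i))), (∃ k : ℕ, 2 ^ k • x = 0) → x + x = 0) ∧
    |lS i n - nu n (uI i) (vI i)| ≤ cst (uI i) (vI i) := by
  have hA : Adm n i.1.1 i.1.2 := hn.2.2 i.1 hi
  have hPr : Pr i.1 := ⟨hA.cop, hA.a2, hA.b2, hA.b0⟩
  have hT : Triv n i.1.1 i.1.2 := (triv_iff P.UT hA).2 hQ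
  have hT' : Triv n (uI i) (vI i) := by
    unfold uI vI
    split_ifs
    · exact hT
    · unfold Triv at hT ⊢
      rw [EQ_symm]
      exact hT
  obtain ⟨D, hf⟩ := dat_of P.IT hA.sqf hA.n8 hQ (bd_ne hPr) hT'.1 (fun x hx => hT'.2 1 x (by
    rw [pow_one, two_nsmul]
    exact hx))
  obtain ⟨h1, h2, h3, h4, h5⟩ := str P.IN P.IS P.ISQ P.IU P.ILO P.TR D hf
  refine ⟨h1, h2, h3, ?_⟩
  have hpos : 0 < Nat.card (S2 i n) := by
    rcases Nat.eq_zero_or_pos (Nat.card (S2 i n)) with h | h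
    · rw [h, mul_zero] at h4
      have : 0 < 2 ^ nu n (uI i) (vI i) := by positivity
      omega
    · exact h
  have hposR : (0 : ℝ) < (Nat.card (S2 i n) : ℝ) := by exact_mod_cast hpos
  unfold lS
  have e : ∀ k : ℕ, Real.logb 2 ((2 : ℝ) ^ k) = k := fun k => by
    rw [Real.logb_pow, Real.logb_self_eq_one (by norm_num), mul_one]
  rw [abs_le]
  constructor
  · have k1 : ((2 : ℝ) ^ nu n (uI i) (vI i)) ≤ 2 ^ cst (uI i) (vI i) * (Nat.card (S2 i n) : ℝ) := by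
      exact_mod_cast h4
    have k2 := Real.logb_le_logb_of_le (b := 2) (by norm_num) (by positivity) k1
    rw [Real.logb_mul (by positivity) hposR.ne', e, e] at k2
    linarith
  · have k1 : (Nat.card (S2 i n) : ℝ) ≤ (2 : ℝ) ^ (nu n (uI i) (vI i) + cst (uI i) (vI i)) := by
      exact_mod_cast h5
    have k2 := Real.logb_le_logb_of_le (b := 2) (by norm_num) hposR k1
    rw [e] at k2
    push_cast at k2
    linarith

/-- the number of the primes and the sum of the symbols -/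
theorem nu_xn {F : Finset (ℤ × ℤ)} (hM : 0 < MF F) {n : ℕ} {i : Ix} (hPr : Pr i.1)
    (hi : i.1 ∈ F) :
    |(nu n (uI i) (vI i) : ℝ) - ∑ p ∈ n.primeFactors, xn (MF F) (dI i) p| ≤
      ((MF F).primeFactors.card : ℝ) := by
  have h1 : (nu n (uI i) (vI i) : ℝ) =
      ∑ p ∈ n.primeFactors, if ¬ IsSquare ((dI i : ℤ) : ZMod p) then (1 : ℝ) else 0 := by
    unfold nu
    rw [card_filter]
    push_cast
    exact sum_congr rfl fun p _ => by unfold dI; push_cast; rfl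
  rw [h1, ← sum_sub_distrib]
  have h2 : ∀ p ∈ n.primeFactors, |(if ¬ IsSquare ((dI i : ℤ) : ZMod p) then (1 : ℝ) else 0) -
      xn (MF F) (dI i) p| ≤ if p ∈ (MF F).primeFactors then 1 else 0 := by
    intro p hp
    have hpp := Nat.prime_of_mem_primeFactors hp
    by_cases hpM : p ∣ MF F
    · rw [if_pos (Nat.mem_primeFactors.2 ⟨hpp, hpM, hM.ne'⟩)]
      unfold xn
      split_ifs <;> norm_num
    · rw [if_neg (fun h => hpM (Nat.dvd_of_mem_primeFactors h))]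
      have h3 := (P.CHI (MF F) (dI i) (dI_ne hPr) hM (dI_dvd hi)).1 p hpp hpM
      unfold xn
      by_cases h4 : IsSquare ((dI i : ℤ) : ZMod p)
      · rw [if_neg (not_not.2 h4), if_neg (fun h => (h3.2 h) h4)]
        simp
      · rw [if_pos h4, if_pos (h3.1 h4)]
        simp
  refine (abs_sum_le_sum_abs _ _).trans ((sum_le_sum h2).trans ?_)
  rw [sum_boole]
  exact_mod_cast card_le_card fun p hp => (mem_filter.1 hp).2

/-- the classes -/
theorem mk_of {F : Finset (ℤ × ℤ)} (hF : ∀ c ∈ F, Pr c) : MK (MF F) (KF F) := by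
  obtain ⟨h1, -, h3, h4⟩ := P.NFK F hF
  refine ⟨?_, h1, h3, h4⟩
  unfold MF
  exact Dvd.intro _ rfl

/-- the law -/
theorem lawF {F : Finset (ℤ × ℤ)} (hF : ∀ c ∈ F, Pr c) : Law (MF F) (KF F) := by
  have h := mk_of P hF
  exact P.GLK (MF F) (KF F) h.d8 h.M0 (fun r hr hc => P.GLM (MF F) r h.d8 h.M0 hr hc) h.ne
    fun r hr => ⟨(h.K4 r hr).1, (h.K4 r hr).2.2⟩

lemma cls_eq' {F : Finset (ℤ × ℤ)} (hF : ∀ c ∈ F, Pr c) (X : ℕ) :
    cls (MF F) (KF F) X = (Icc 1 X).filter fun n => n ∈ NF F := by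
  unfold cls
  refine filter_congr fun n _ => ?_
  rw [(P.NFK F hF).2.1 n]

/-- the density of the good set -/
theorem dens {F : Finset (ℤ × ℤ)} (hF : ∀ c ∈ F, Pr c) : Tendsto (fun X : ℕ =>
    (((Icc 1 X).filter fun n => n ∈ NF F ∧ Qc n).card : ℝ) /
      (((Icc 1 X).filter fun n => n ∈ NF F).card : ℝ)) atTop (nhds eta) := by
  have hMK := mk_of P hF
  obtain ⟨c, X₁, hc, hlow⟩ := low hMK
  have h1 : Tendsto (fun X : ℕ => (((cls (MF F) (KF F) X).filter fun _ => True).card : ℝ) /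
      ((cls (MF F) (KF F) X).card : ℝ)) atTop (nhds 1) := by
    refine tendsto_const_nhds.congr' ?_
    filter_upwards [eventually_ge_atTop X₁, eventually_ge_atTop 1] with X g1 g2
    have hX : (0 : ℝ) < X := by exact_mod_cast g2
    have hS : (0 : ℝ) < ((cls (MF F) (KF F) X).card : ℝ) := lt_of_lt_of_le (by positivity) (hlow X g1)
    rw [filter_true_of_mem fun _ _ => trivial, div_self hS.ne']
  have h2 := ev_lim hMK P.AMF (fun _ _ => True) (g := 1) (by convert h1)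
  rw [mul_one] at h2
  refine h2.congr fun X => ?_
  refine congrArg₂ (fun a b : ℕ => (a : ℝ) / (b : ℝ)) (congrArg card ?_) (by rw [cls_eq' P hF])
  ext n
  have h3 := cls_eq' P hF X
  simp only [mem_filter, h3]
  tauto

/-- **the joint law** -/
theorem joint {F : Finset (ℤ × ℤ)} (hF : ∀ c ∈ F, Pr c) (I : Finset Ix) (hI : ∀ i ∈ I, i.1 ∈ F)
    (hds : ∀ i ∈ I, ¬ IsSquare (dI i)) (hdd : ∀ i ∈ I, ∀ j ∈ I, i ≠ j → ¬ IsSquare (dI i * dI j))
    (w : Ix → ℝ) (hw : ∃ i ∈ I, w i ≠ 0) (t : ℝ) : Tendsto (fun X : ℕ =>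
    (((Icc 1 X).filter fun n => n ∈ NF F ∧ Qc n ∧ ∑ i ∈ I, w i * lS i n ≤
      (∑ i ∈ I, w i) / 2 * Real.log (Real.log X) +
        t * √(((∑ i ∈ I, w i) ^ 2 + ∑ i ∈ I, w i ^ 2) / 4 * Real.log (Real.log X))).card : ℝ) /
      (((Icc 1 X).filter fun n => n ∈ NF F).card : ℝ)) atTop
      (nhds (eta * (ProbabilityTheory.gaussianReal 0 1).real (Set.Iic t))) := by
  have hMK := mk_of P hF
  have hd0 : ∀ i ∈ I, dI i ≠ 0 := fun i hi => dI_ne (hF _ (hI i hi))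
  have hd4 : ∀ i ∈ I, 4 * dI i ∣ (MF F : ℤ) := fun i hi => dI_dvd (hI i hi)
  have e1 := mn_hh I dI w P.CHI hMK.M0 hd0 hd4 hds
  have e2 := mn_hh2 I dI w P.CHI hMK.M0 hd0 hd4 hds hdd
  have hV : 0 < mn (MF F) (fun a => hh I dI w (MF F) a ^ 2) := by
    rw [e2]
    obtain ⟨i, hi, hwi⟩ := hw
    have h1 : 0 < ∑ i ∈ I, w i ^ 2 :=
      sum_pos' (fun j _ => sq_nonneg _) ⟨i, hi, by positivity⟩
    have h2 : 0 ≤ (∑ i ∈ I, w i) ^ 2 := sq_nonneg _
    linarith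
  have h1 := lawQ hMK P.AMF (lawF P hF) (hh I dI w (MF F)) (hh_per I dI w) hV t
    (∑ i ∈ I, |w i| * (cst (uI i) (vI i) + ((MF F).primeFactors.card : ℝ)))
    (fun n => ∑ i ∈ I, w i * lS i n) (fun n hn hnK hQ => ?_)
  · rw [e1, e2] at h1
    refine h1.congr fun X => ?_
    rw [cls_eq' P hF, filter_filter]
  · have hnF : n ∈ NF F := ((P.NFK F hF).2.1 n).2 ⟨hn, hnK⟩
    have h2 : ∑ i ∈ I, w i * lS i n - ∑ p ∈ n.primeFactors, hh I dI w (MF F) p =
        ∑ i ∈ I, w i * (lS i n - ∑ p ∈ n.primeFactors, xn (MF F) (dI i) p) := by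
      unfold hh
      rw [sum_comm, ← sum_sub_distrib]
      refine sum_congr rfl fun i _ => ?_
      rw [mul_sub, mul_sum]
    rw [h2]
    refine (abs_sum_le_sum_abs _ _).trans (sum_le_sum fun i hi => ?_)
    rw [abs_mul]
    refine mul_le_mul_of_nonneg_left ?_ (abs_nonneg _)
    have h3 := (one P hnF hQ (hI i hi)).2.2.2
    have h4 := nu_xn P hMK.M0 (n := n) (hF _ (hI i hi)) (hI i hi)
    have h5 := abs_add_le (lS i n - nu n (uI i) (vI i))
      ((nu n (uI i) (vI i) : ℝ) - ∑ p ∈ n.primeFactors, xn (MF F) (dI i) p)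
    rw [sub_add_sub_cancel] at h5
    linarith

end Pool.Agent.N818.IL
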