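import Pool.Agent.N818.SN.Law
import Pool.Agent.N818.IL.Stm

/-!
# IL: the Gaussian law on the set without ideal classes of order four
-/

set_option autoImplicit false
set_option linter.style.haveILetI false

open scoped Classical

namespace Pool.Agent.N818.IL

open Finset Filter
open Pool.Agent.N916.AM (SS LAH Cl)
open Pool.Agent.N969.P15 (Qc)
open Pool.Agent.N916.GB (eta Gd)
open Pool.Agent.N818.SN (cn S_AMF loglog_top shift gauss_cont)

/-- the hypotheses on the modulus and the classes -/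
structure MK (M : ℕ) (K : Finset ℕ) : Prop where
  d8 : 8 ∣ M
  M0 : 0 < M
  ne : K.Nonempty
  K4 : ∀ r ∈ K, r < M ∧ r % 8 = 3 ∧ ∃ n : ℕ, Squarefree n ∧ n % M = r ∧ n % 2 = 1

/-- the squarefree numbers of the classes -/
noncomputable def cls (M : ℕ) (K : Finset ℕ) (X : ℕ) : Finset ℕ :=
  (Icc 1 X).filter fun n => Squarefree n ∧ n % M ∈ K

section

variable {M : ℕ} {K : Finset ℕ} (H : MK M K)

lemma mem_cls {X n : ℕ} : n ∈ cls M K X ↔ n ∈ Icc 1 X ∧ Squarefree n ∧ n % M ∈ K := by
  unfold cls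
  rw [mem_filter]

include H

lemma lahM : LAH M K (Gd false 0 0) eta :=
  Pool.Agent.N916.AM.lah_red H.d8 H.M0 (fun _ => rfl) (fun h => absurd h (by decide))
    (fun a ha => by
      rw [if_pos rfl]
      have := (H.K4 a ha).2.1
      omega)

lemma mod8 {n : ℕ} (h : n % M ∈ K) : n % 8 = 3 := by
  have h1 := (H.K4 _ h).2.1
  rw [Nat.mod_mod_of_dvd _ H.d8] at h1
  exact h1

lemma card_cls (X : ℕ) (Q : Finset ℕ → Prop) :
    ((cls M K X).filter fun n => Q n.primeFactors).card = ((SS M K X).filter Q).card := by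
  rw [← Pool.Agent.N916.AM.card_eq (dvd_trans (by norm_num) H.d8) (by
    intro a ha
    have := (H.K4 a ha).2.1
    omega) X Q]
  congr 1
  ext n
  rw [mem_filter, mem_cls, mem_filter]
  tauto

/-- the density with an event -/
theorem ev (hAMF : S_AMF) (A : ℕ → (ℕ → ℕ) → Prop) (ε : ℝ) (hε : 0 < ε) : ∃ X₀ : ℕ, ∀ X : ℕ,
    X₀ ≤ X → |(((cls M K X).filter fun n => Qc n ∧ A X (cn M n.primeFactors)).card : ℝ) -
      eta * (((cls M K X).filter fun n => A X (cn M n.primeFactors)).card : ℝ)| ≤ ε * X := by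
  have h01 := Pool.Agent.N916.AM.eta01
  obtain ⟨X₀, h⟩ := hAMF M K (Gd false 0 0) eta H.d8 H.M0 h01.1 h01.2 (lahM H) A ε hε
  refine ⟨X₀, fun X hX => ?_⟩
  have h1 := h X hX
  have k1 : ((SS M K X).filter fun S => A X (cn M S) ∧ Gd false 0 0 S).card =
      ((cls M K X).filter fun n => A X (cn M n.primeFactors) ∧ Gd false 0 0 n.primeFactors).card := by
    have h2 := card_cls H X (fun S => A X (cn M S) ∧ Gd false 0 0 S)
    convert h2.symm
  have k2 : ((SS M K X).filter fun S => A X (cn M S)).card =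
      ((cls M K X).filter fun n => A X (cn M n.primeFactors)).card := by
    have h2 := card_cls H X (fun S => A X (cn M S))
    convert h2.symm
  rw [k1, k2] at h1
  have e : ((cls M K X).filter fun n => Qc n ∧ A X (cn M n.primeFactors)) =
      (cls M K X).filter fun n => A X (cn M n.primeFactors) ∧ Gd false 0 0 n.primeFactors := by
    refine filter_congr fun n hn => ?_
    obtain ⟨-, h3, h4⟩ := mem_cls.1 hn
    have h5 := mod8 H h4
    rw [Pool.Agent.N916.GB.Gd_iff_Qc h3 (by omega)]
    tauto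
  rw [e]
  exact h1

/-- the classes have positive density -/
theorem low : ∃ (c : ℝ) (X₀ : ℕ), 0 < c ∧ ∀ X : ℕ, X₀ ≤ X → c * X ≤ ((cls M K X).card : ℝ) := by
  obtain ⟨r, hr⟩ := H.ne
  obtain ⟨-, -, n, h1, h2, -⟩ := H.K4 r hr
  obtain ⟨c, X₀, hc, h⟩ := Pool.Agent.N916.AM.low (M := M) (n₀ := n) H.M0
    (dvd_trans (by norm_num) H.d8) h1
  refine ⟨c, X₀, hc, fun X hX => (h X hX).trans ?_⟩
  refine Nat.cast_le.2 (card_le_card fun m hm => ?_)
  obtain ⟨h3, h4, h5⟩ := mem_filter.1 hm
  exact mem_cls.2 ⟨h3, h4, by rw [h5, h2]; exact hr⟩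

/-- the limit of the proportion with an event -/
theorem ev_lim (hAMF : S_AMF) (A : ℕ → (ℕ → ℕ) → Prop) {g : ℝ}
    (h : Tendsto (fun X : ℕ => (((cls M K X).filter fun n => A X (cn M n.primeFactors)).card : ℝ) /
      ((cls M K X).card : ℝ)) atTop (nhds g)) :
    Tendsto (fun X : ℕ => (((cls M K X).filter fun n => Qc n ∧ A X (cn M n.primeFactors)).card : ℝ) /
      ((cls M K X).card : ℝ)) atTop (nhds (eta * g)) := by
  obtain ⟨c, X₁, hc, hlow⟩ := low H
  have h0 : Tendsto (fun X : ℕ =>
      (((cls M K X).filter fun n => Qc n ∧ A X (cn M n.primeFactors)).card : ℝ) /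
        ((cls M K X).card : ℝ) -
      eta * ((((cls M K X).filter fun n => A X (cn M n.primeFactors)).card : ℝ) /
        ((cls M K X).card : ℝ))) atTop (nhds 0) := by
    rw [Metric.tendsto_nhds]
    intro ε hε
    obtain ⟨X₂, h2⟩ := ev H hAMF A (c * ε / 2) (by positivity)
    filter_upwards [eventually_ge_atTop X₁, eventually_ge_atTop X₂, eventually_ge_atTop 1] with X g1
      g2 g3
    have k1 := hlow X g1
    have k2 := h2 X g2
    have hX : (0 : ℝ) < X := by exact_mod_cast g3
    have hS : (0 : ℝ) < ((cls M K X).card : ℝ) := lt_of_lt_of_le (by positivity) k1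
    rw [Real.dist_eq, sub_zero, ← mul_div_assoc, ← sub_div, abs_div, abs_of_pos hS, div_lt_iff₀ hS]
    refine lt_of_le_of_lt k2 ?_
    have k3 : ε * (c * X) ≤ ε * ((cls M K X).card : ℝ) := mul_le_mul_of_nonneg_left k1 hε.le
    have k4 : 0 < c * ε * X := by positivity
    linarith
  have h1 := h0.add (h.const_mul eta)
  rw [zero_add] at h1
  refine h1.congr fun X => ?_
  ring

/-- the sum over the prime factors in terms of the numbers in the classes -/
lemma sum_cn (h : ℕ → ℝ) (hper : ∀ p, h (p % M) = h p) (n : ℕ) :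
    ∑ p ∈ n.primeFactors, h p = ∑ a ∈ range M, h a * (cn M n.primeFactors a : ℝ) := by
  have hmap : ∀ p ∈ n.primeFactors, p % M ∈ range M := fun p _ => mem_range.2 (Nat.mod_lt _ H.M0)
  rw [← sum_fiberwise_of_maps_to hmap]
  refine sum_congr rfl fun a _ => ?_
  unfold cn
  rw [mul_comm, ← nsmul_eq_mul, ← sum_const]
  refine sum_congr rfl fun p hp => ?_
  rw [← hper p, (mem_filter.1 hp).2]

/-- **the law on the good set**, for a function close to a sum over the prime factors -/
theorem lawQ (hAMF : S_AMF) (hL : Law M K) (h : ℕ → ℝ) (hper : ∀ p, h (p % M) = h p)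
    (hV : 0 < mn M (fun a => h a ^ 2)) (t C : ℝ) (S : ℕ → ℝ)
    (hS : ∀ n : ℕ, Squarefree n → n % M ∈ K → Qc n → |S n - ∑ p ∈ n.primeFactors, h p| ≤ C) :
    Tendsto (fun X : ℕ => (((cls M K X).filter fun n => Qc n ∧
      S n ≤ mn M h * Real.log (Real.log X) +
        t * √(mn M (fun a => h a ^ 2) * Real.log (Real.log X))).card : ℝ) /
      ((cls M K X).card : ℝ)) atTop
      (nhds (eta * (ProbabilityTheory.gaussianReal 0 1).real (Set.Iic t))) := by
  set s : ℕ → ℝ := fun X => √(mn M (fun a => h a ^ 2) * Real.log (Real.log (X : ℝ))) with hs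
  have hs_top : Tendsto s atTop atTop :=
    Real.tendsto_sqrt_atTop.comp (loglog_top.const_mul_atTop hV)
  let F : ℕ → ℝ → ℝ := fun X r => (((cls M K X).filter fun n =>
    ∑ p ∈ n.primeFactors, h p ≤ mn M h * Real.log (Real.log X) + r * s X).card : ℝ) /
      ((cls M K X).card : ℝ)
  have hF : ∀ r, Tendsto (fun X => F X r) atTop
      (nhds ((ProbabilityTheory.gaussianReal 0 1).real (Set.Iic r))) := by
    intro r
    have h1 := hL h r hper hV
    refine h1.congr fun X => ?_
    show _ = F X r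
    have e1 : ((Icc 1 X).filter fun n => Squarefree n ∧ n % M ∈ K) = cls M K X := rfl
    simp only [F, e1]
    congr 3
    ext n
    simp only [mem_filter, mem_cls, hs]
    tauto
  have hmono : ∀ X a b, a ≤ b → F X a ≤ F X b := by
    intro X a b hab
    have hs0 : 0 ≤ s X := Real.sqrt_nonneg _
    refine div_le_div_of_nonneg_right ?_ (Nat.cast_nonneg _)
    refine Nat.cast_le.2 (card_le_card fun n hn => ?_)
    rw [mem_filter] at hn ⊢
    refine ⟨hn.1, hn.2.trans ?_⟩
    have := mul_le_mul_of_nonneg_right hab hs0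
    linarith
  have key : ∀ c : ℝ, Tendsto (fun X : ℕ => (((cls M K X).filter fun n => Qc n ∧
      ∑ p ∈ n.primeFactors, h p ≤ mn M h * Real.log (Real.log X) + t * s X + c).card : ℝ) /
      ((cls M K X).card : ℝ)) atTop
      (nhds (eta * (ProbabilityTheory.gaussianReal 0 1).real (Set.Iic t))) := by
    intro c
    have he : Tendsto (fun X => c / s X) atTop (nhds 0) := hs_top.const_div_atTop _
    have h2 := shift hmono gauss_cont.continuousAt hF he (t := t)
    let A : ℕ → (ℕ → ℕ) → Prop := fun X f => ∑ a ∈ range M, h a * (f a : ℝ) ≤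
      mn M h * Real.log (Real.log X) + t * s X + c
    have hA : ∀ (X n : ℕ), A X (cn M n.primeFactors) ↔ ∑ p ∈ n.primeFactors, h p ≤
        mn M h * Real.log (Real.log X) + t * s X + c := by
      intro X n
      simp only [A, ← sum_cn H h hper]
    have h3 : Tendsto (fun X : ℕ =>
        (((cls M K X).filter fun n => A X (cn M n.primeFactors)).card : ℝ) /
        ((cls M K X).card : ℝ)) atTop
        (nhds ((ProbabilityTheory.gaussianReal 0 1).real (Set.Iic t))) := by
      refine h2.congr' ?_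
      filter_upwards [hs_top.eventually_gt_atTop 0] with X hX
      simp only [F]
      congr 3
      refine filter_congr fun n _ => ?_
      rw [hA, add_mul, div_mul_cancel₀ _ hX.ne', add_assoc]
    have h4 := ev_lim H hAMF A h3
    refine h4.congr fun X => ?_
    congr 3
    refine filter_congr fun n _ => ?_
    rw [hA]
  refine tendsto_of_tendsto_of_tendsto_of_le_of_le (key (-C)) (key C) (fun X => ?_) (fun X => ?_)
  · refine div_le_div_of_nonneg_right ?_ (Nat.cast_nonneg _)
    refine Nat.cast_le.2 (card_le_card fun n hn => ?_)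
    obtain ⟨h1, h2, h3⟩ := mem_filter.1 hn
    obtain ⟨-, h4, h5⟩ := mem_cls.1 h1
    have h6 := abs_le.1 (hS n h4 h5 h2)
    refine mem_filter.2 ⟨h1, h2, ?_⟩
    show S n ≤ mn M h * Real.log (Real.log X) + t * s X
    linarith
  · refine div_le_div_of_nonneg_right ?_ (Nat.cast_nonneg _)
    refine Nat.cast_le.2 (card_le_card fun n hn => ?_)
    obtain ⟨h1, h2, h3⟩ := mem_filter.1 hn
    obtain ⟨-, h4, h5⟩ := mem_cls.1 h1
    have h6 := abs_le.1 (hS n h4 h5 h2)
    refine mem_filter.2 ⟨h1, h2, ?_⟩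
    have h7 : S n ≤ mn M h * Real.log (Real.log X) + t * s X := h3
    linarith

end

end Pool.Agent.N818.IL
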