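import Pool.Agent.N818.IL.Fin
import Pool.Agent.N644.IL.IN
import Pool.Agent.N286.IL.IS
import Pool.Agent.N702.IL.ISQ
import Pool.Agent.N999.IL.IT
import Pool.Agent.N371.IL.IU
import Pool.Agent.N11.IL.ILO
import Pool.Agent.N427.IL.GLM
import Pool.Agent.N946.IL.Glk
import Pool.Agent.N271.IL.CHI
import Pool.Agent.N907.IL.NFK
import Pool.Agent.N457.SN.TR
import Pool.Agent.N323.SN.AMF
import Pool.Agent.N873.UT.Parts2

/-!
# IL: the parts
-/

set_option autoImplicit false

namespace Pool.Agent.N818.IL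

/-- all the parts, proved by helpers 644, 286, 702, 999, 371, 11, 427, 946, 271, 907, 457, 323 and the
authors of project UT (helper873) -/
theorem parts : Parts where
  IN := Pool.Agent.N644.IL.t_IN
  IS := Pool.Agent.N286.IL.t_IS
  ISQ := Pool.Agent.N702.IL.t_ISQ
  IT := Pool.Agent.N999.IL.t_IT
  IU := Pool.Agent.N371.IL.t_IU
  ILO := Pool.Agent.N11.IL.t_ILO
  GLM := Pool.Agent.N427.IL.t_GLM
  GLK := Pool.Agent.N946.IL.t_GLK
  CHI := Pool.Agent.N271.IL.t_CHI
  NFK := Pool.Agent.N907.IL.t_NFK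
  TR := Pool.Agent.N457.SN.TR.t_TR
  AMF := Pool.Agent.N323.SN.AMF.t_AMF
  UT := Pool.Agent.N873.UT.parts2.p

end Pool.Agent.N818.IL
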