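import Pool.Agent.N818.IL.StrL
import Pool.Agent.N818.SN.Hyp
import Pool.Agent.N873.UT.Fin
import Pool.Agent.N216.SN.T
import Pool.Agent.N402.SL.SP0

/-!
# IL: the structure of the 2-primary part of `Ш` for one curve
-/

set_option autoImplicit false
set_option linter.style.haveILetI false

open scoped Classical

namespace Pool.Agent.N818.IL

open Finset WeierstrassCurve
open Pool.Agent.TH841.SH.D (Sha)
open Pool.Agent.Z702 (LocI WZ)
open Pool.Agent.Y700 (VR)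
open Pool.Agent.Y668 (Wt)
open Pool.Agent.N969.P15 (Qc)
open Pool.Agent.N818.SN (LK S_TR)
open Pool.Agent.N873.UT (EQ Em Adm Triv)

theorem t_HEN : S_HEN := by
  refine ⟨fun p _ d h2 hd hsq => ?_, fun d hd => ?_⟩
  · have hdz : ((d : ℤ) : ZMod p) ≠ 0 := fun h => hd ((ZMod.intCast_zmod_eq_zero_iff_dvd d p).1 h)
    exact Pool.Agent.N402.SL.sqQ h2 d ((quadraticChar_one_iff_isSquare hdz).2 hsq)
  · obtain ⟨w, hw⟩ := Pool.Agent.N216.SN.sqr8 hd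
    exact ⟨w, by rw [← hw]; ring⟩

lemma EQ_eq (n u v : ℤ) : EQ n u v = WZ (-(n * (u ^ 2 + v ^ 2))) (n ^ 2 * u ^ 2 * v ^ 2) :=
  Pool.Agent.N818.SN.base_WZ _ _

/-- the isogenous curve is `EQ n u v` -/
lemma vrI (n u v : ℤ) : VR (WZ (-2 * aI n u v) (aI n u v ^ 2 - 4 * bI n v)) (EQ n u v) 2
    (-4 * n * u ^ 2) 0 0 := by
  rw [EQ_eq]
  refine ⟨by norm_num, ?_, ?_, ?_, ?_, ?_⟩
  · simp [WZ, Wt]
  · simp only [WZ, Wt, aI]
    push_cast
    ring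
  · simp [WZ, Wt]
  · simp only [WZ, Wt, aI, bI]
    push_cast
    ring
  · simp only [WZ, Wt, aI, bI]
    push_cast
    ring

lemma EQ_Δ (n u v : ℤ) : (EQ n u v).Δ =
    16 * ((n : ℚ) ^ 2 * u ^ 2 * v ^ 2) ^ 2 * (n * (u ^ 2 - v ^ 2)) ^ 2 := by
  rw [EQ_eq, Pool.Agent.N818.SN.WZ_Δ]
  push_cast
  ring

lemma EQ_symm (n a b : ℤ) : EQ n a b = EQ n b a := by
  have : Em n a b = Em n b a := by
    unfold Em
    congr 1 <;> ring
  unfold EQ
  rw [this]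

/-- the data of one curve -/
theorem dat_of (hIT : S_IT) {n : ℕ} {u v : ℤ} (hsq : Squarefree n) (h8 : n % 8 = 3) (hQ : Qc n)
    (hbd : bd u v ≠ 0) (hfin : Finite (EQ n u v).toAffine.Point)
    (hSha : ∀ x : Sha (EQ n u v), x + x = 0 → x = 0) :
    Dat n u v ∧ Finite (WZ (-2 * aI n u v) (aI n u v ^ 2 - 4 * bI n v)).toAffine.Point := by
  have hn : (n : ℤ) ≠ 0 := by
    have : n ≠ 0 := by omega
    exact_mod_cast this
  have huv : u ≠ 0 ∧ v ≠ 0 ∧ u ^ 2 - v ^ 2 ≠ 0 := by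
    unfold bd at hbd
    refine ⟨?_, ?_, ?_⟩
    · rintro rfl
      exact hbd (by ring)
    · rintro rfl
      exact hbd (by ring)
    · intro h1
      exact hbd (by rw [h1]; ring)
  have hΔ : (EQ n u v).Δ ≠ 0 := by
    rw [EQ_Δ]
    have h1 : ((n : ℤ) : ℚ) ≠ 0 := by exact_mod_cast hn
    have h2 : (u : ℚ) ≠ 0 := by exact_mod_cast huv.1
    have h3 : (v : ℚ) ≠ 0 := by exact_mod_cast huv.2.1
    have h4 : (u : ℚ) ^ 2 - v ^ 2 ≠ 0 := by exact_mod_cast huv.2.2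
    positivity
  have hvr := vrI (n : ℤ) u v
  obtain ⟨h1, h2, -⟩ := Pool.Agent.Z932.Z702.t_TRN _ _ _ _ _ _ hvr hΔ
  have hf := h1.2 hfin
  refine ⟨⟨hsq, h8, hQ, hbd, h2.2 hSha, ?_⟩, hf⟩
  obtain ⟨k, hk, hk'⟩ := hIT n u v (Int.squarefree_natCast.2 hsq) (by omega) huv.1 huv.2.1
    (fun h => huv.2.2 (by rw [h]; ring)) hfin
  refine ⟨k, hk, ?_⟩
  rw [← hk']
  exact (Nat.card_congr (hvr.equiv hΔ).toEquiv).symm

/-- the constant -/
def cst (u v : ℤ) : ℕ := 2 * (T u v).card + 2 + md u v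

/-- **the structure for one curve** -/
theorem str (hIN : S_IN) (hIS : S_IS) (hISQ : S_ISQ) (hIU : S_IU) (hILO : S_ILO) (hTR : S_TR)
    {n : ℕ} {u v : ℤ} (D : Dat n u v)
    (hf : Finite (WZ (-2 * aI n u v) (aI n u v ^ 2 - 4 * bI n v)).toAffine.Point) :
    Finite (WZ (aI n u v) (bI n v)).toAffine.Point ∧
    Finite {x : Sha (WZ (aI n u v) (bI n v)) // ∃ k : ℕ, 2 ^ k • x = 0} ∧
    (∀ x : Sha (WZ (aI n u v) (bI n v)), (∃ k : ℕ, 2 ^ k • x = 0) → x + x = 0) ∧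
    2 ^ nu n u v ≤ 2 ^ cst u v *
      Nat.card {x : Sha (WZ (aI n u v) (bI n v)) // ∃ k : ℕ, 2 ^ k • x = 0} ∧
    Nat.card {x : Sha (WZ (aI n u v) (bI n v)) // ∃ k : ℕ, 2 ^ k • x = 0} ≤
      2 ^ (nu n u v + cst u v) := by
  obtain ⟨u1, u2, u3⟩ := upper D hIN hIU
  have l1 := lower D t_HEN hIS hISQ hILO hTR u1
  refine ⟨Pool.Agent.N818.SN.fin_back (hb D) (hab D) hf, u1, u3, l1.trans ?_, u2.trans ?_⟩
  · refine Nat.mul_le_mul_right _ ?_
    have h1 : md u v ≤ 2 ^ md u v := Nat.lt_two_pow_self.le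
    calc 2 ^ ((T u v).card + 2) * md u v ≤ 2 ^ ((T u v).card + 2) * 2 ^ md u v :=
          Nat.mul_le_mul_left _ h1
      _ = 2 ^ ((T u v).card + 2 + md u v) := by rw [← pow_add]
      _ ≤ 2 ^ cst u v := Nat.pow_le_pow_right (by norm_num) (by unfold cst; omega)
  · exact Nat.pow_le_pow_right (by norm_num) (by unfold cst; omega)

end Pool.Agent.N818.IL
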