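import Pool.Agent.N818.IL.StrU

/-!
# IL: the lower bound for the order of the 2-primary part of `Ш`
-/

set_option autoImplicit false
set_option linter.style.haveILetI false

open scoped Classical

namespace Pool.Agent.N818.IL

open Finset WeierstrassCurve
open Pool.Agent.TH841.SH.D
open Pool.Agent.Z702 (LocI WZ coc T0)
open Pool.Agent.N969.P15 (Qc)
open Pool.Agent.N818.SN (LK S_TR cob_sub cob_tor coc_two eq_of_sqZ)
open Pool.Agent.N818.SL (coc_add cls cls_eq cls_add cls_zero_iff prim lcb cob_of_eq sqf_prod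
  ndvd_prod prod_symm)

/-- a unit modulo an odd prime which is a square is a square in `ℚ_p` -/
def S_HEN : Prop := (∀ (p : ℕ) [Fact p.Prime] (d : ℤ), p ≠ 2 → ¬ (p : ℤ) ∣ d → IsSquare (d : ZMod p) →
  IsSquare (d : ℚ_[p])) ∧ ∀ d : ℤ, d % 8 = 1 → IsSquare (d : ℚ_[2])

section

variable {n : ℕ} {u v : ℤ} (D : Dat n u v)

/-- the modulus -/
def md (u v : ℤ) : ℕ := 4 * (bd u v).natAbs

include D

lemma md_pos : 0 < md u v := by
  have := Int.natAbs_pos.2 D.bd0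
  unfold md
  omega

omit D in
lemma eight_dvd : 8 ∣ md u v := by
  unfold md bd
  rw [Int.natAbs_mul, Int.natAbs_mul, Int.natAbs_mul]
  exact ⟨u.natAbs * v.natAbs * (u ^ 2 - v ^ 2).natAbs, by norm_num; ring⟩

lemma q_md {q : ℕ} (hq : q ∈ Q n u v) : ¬ q ∣ md u v := by
  obtain ⟨h1, h2⟩ := mem_sdiff.1 hq
  have hp := primeP h1
  intro h
  unfold md at h
  rcases (Nat.Prime.dvd_mul hp).1 h with h3 | h3
  · have h4 : q ∣ 2 ^ 2 := h3
    exact odd_of D h1 ((Nat.prime_dvd_prime_iff_eq hp Nat.prime_two).1 (hp.dvd_of_dvd_pow h4))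
  · exact h2 ((memT D hp).2 (Int.natCast_dvd.2 h3))

/-- the sets for the lower bound -/
noncomputable def S0 (n : ℕ) (u v : ℤ) : Finset (Finset ℕ) :=
  (Q n u v).powerset.filter fun J => CI 1 n.primeFactors (R n u v) J ∧
    IsSquare ((∏ q ∈ J, q : ℕ) : ZMod (md u v))

/-- the classes are everywhere locally trivial -/
theorem mem (hH : S_HEN) (hIS : S_IS) (hISQ : S_ISQ) {J : Finset ℕ} (hJ : J ∈ S0 n u v) :
    coc (hb D) ((∏ q ∈ J, q : ℕ) : ℤ) ∈ shaCoc (WZ (aI n u v) (bI n v)) := by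
  obtain ⟨h1, h2, h3⟩ := mem_filter.1 hJ
  rw [mem_powerset] at h1
  have hpr : ∀ q ∈ J, q.Prime := fun q hq => primeP (Qsub (h1 hq))
  have hsf : Squarefree ((∏ q ∈ J, q : ℕ) : ℤ) := Int.squarefree_natCast.2 (sqf_prod hpr)
  have hpos : (0 : ℤ) < ((∏ q ∈ J, q : ℕ) : ℤ) := by
    exact_mod_cast Finset.prod_pos fun q hq => (hpr q hq).pos
  obtain ⟨i1, i2⟩ := hISQ (aI n u v) (bI n v) _ hsf.ne_zero
  have hdvd : ∀ p : ℕ, p.Prime → p ∉ J → ¬ (p : ℤ) ∣ ((∏ q ∈ J, q : ℕ) : ℤ) := fun p hp hpJ =>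
    ndvd_prod hpr hp hpJ
  refine ⟨(Pool.Agent.Z488.t_COC _ _ (hb D) _).1, fun p hp => ?_, ?_⟩
  swap
  · exact Pool.Agent.Y210.Z702.t_LOT _ _ (hb D) _ (hab D) hsf.ne_zero ℝ (i2 hpos)
  refine Pool.Agent.Y210.Z702.t_LOT _ _ (hb D) _ (hab D) hsf.ne_zero ℚ_[p] ?_
  have hpp : p.Prime := hp.out
  by_cases hpT : p ∈ T u v
  · -- the bad primes
    have hpJ : p ∉ J := fun h => (mem_sdiff.1 (h1 h)).2 hpT
    apply i1 p
    by_cases hp2 : p = 2
    · subst hp2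
      refine hH.2 _ ?_
      have h8 := eight_dvd (u := u) (v := v)
      obtain ⟨s, hs⟩ := h3
      have h4 : IsSquare ((∏ q ∈ J, q : ℕ) : ZMod 8) := by
        refine ⟨ZMod.castHom h8 (ZMod 8) s, ?_⟩
        rw [← map_mul, ← hs, map_natCast]
      have h5 : ¬ 2 ∣ ∏ q ∈ J, q := fun h => hdvd 2 hpp hpJ (by exact_mod_cast h)
      generalize (∏ q ∈ J, q) = N at h4 h5 ⊢
      obtain ⟨s, hs⟩ := h4
      have h6 : ((N % 8 : ℕ) : ZMod 8) = s * s := by
        rw [← hs]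
        exact ZMod.natCast_mod N 8
      have h7 : ∀ s : ZMod 8, ∀ r < 8, r % 2 = 1 → ((r : ℕ) : ZMod 8) = s * s → r = 1 := by decide
      have h9 := h7 s (N % 8) (Nat.mod_lt _ (by norm_num)) (by omega) h6
      omega
    · refine hH.1 p _ hp2 (hdvd p hpp hpJ) ?_
      have hpm : p ∣ md u v := by
        have := (memT D hpp).1 hpT
        unfold md
        exact Dvd.dvd.mul_left (Int.natCast_dvd.1 this) 4
      obtain ⟨s, hs⟩ := h3
      refine ⟨ZMod.castHom hpm (ZMod p) s, ?_⟩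
      rw [← map_mul, ← hs, map_natCast, Int.cast_natCast]
  · obtain ⟨s1, s2, s3, s4⟩ := hIS p n u v _ (fun h => hpT ((memT D hpp).2 h)) (nsqfZ D) hsf
    by_cases hpP : p ∈ n.primeFactors
    swap
    · exact s1 (fun h => hpP ((memP D hpp).1 h)) (hdvd p hpp fun h => hpP (Qsub (h1 h)))
    by_cases hsq : IsSquare ((u ^ 2 - v ^ 2 : ℤ) : ZMod p)
    · have hpR : p ∈ R n u v := mem_filter.2 ⟨mem_sdiff.2 ⟨hpP, hpT⟩, hsq⟩
      obtain ⟨c1, c2⟩ := h2 p hpR
      rw [one_mul] at c1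
      by_cases hpJ : p ∈ J
      · have c3 := c2 hpJ
        rw [one_mul] at c3
        refine s4 _ _ (n_erase D hpP) ?_ c3
        rw [Finset.mul_prod_erase _ (fun q : ℕ => (q : ℤ)) hpJ, Nat.cast_prod]
      · refine s3 (hdvd p hpp hpJ) ?_
        rw [Nat.cast_prod]
        exact c1 hpJ
    · exact s2 ((memP D hpp).2 hpP) hsq

/-- the classes of the rational points -/
theorem cob4 (hTR : S_TR) {d : ℤ} (hd : d ≠ 0) (h : IsCob (WZ (aI n u v) (bI n v)) (coc (hb D) d)) :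
    ∃ i : Fin 4, IsSquare ((d : ℚ) *
      ((![1, ((u ^ 2 - v ^ 2 : ℤ)), -(n * (u ^ 2 - v ^ 2)), -(n : ℤ)] i : ℤ) : ℚ)) := by
  have hn' : (n : ℤ) * v ^ 2 ≠ 0 := mul_ne_zero (n0 D) (pow_ne_zero 2 (uv0 D).2.1)
  have h1 := cob_tor (a := aI n u v) hTR (n := n * v ^ 2) hn' (hb D) (hab D) hd D.four h
  have hsq : ∀ (x y m : ℚ), m ≠ 0 → (d : ℚ) * x = (d : ℚ) * y * m ^ 2 → IsSquare ((d : ℚ) * x) →
      IsSquare ((d : ℚ) * y) := by
    intro x y m hm h2 h3
    rw [h2] at h3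
    have h4 := h3.div (IsSquare.sq m)
    rwa [mul_div_assoc, div_self (pow_ne_zero 2 hm), mul_one] at h4
  have hu : (u : ℚ) ≠ 0 := by exact_mod_cast (uv0 D).1
  have hnQ : (n : ℚ) ≠ 0 := by exact_mod_cast n0 D
  rcases h1 with h1 | h1 | h1 | h1
  · refine ⟨0, ?_⟩
    simpa using h1
  · refine ⟨1, hsq _ _ (4 * n * u) (mul_ne_zero (mul_ne_zero (by norm_num) hnQ) hu) ?_ h1⟩
    simp only [aI, Matrix.cons_val_one, Matrix.cons_val_zero]
    push_cast
    ring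
  · refine ⟨2, hsq _ _ 2 (by norm_num) ?_ h1⟩
    simp only [aI, Matrix.cons_val]
    push_cast
    ring
  · refine ⟨3, hsq _ _ (2 * u) (mul_ne_zero (by norm_num) hu) ?_ h1⟩
    simp only [aI, Matrix.cons_val]
    push_cast
    ring

lemma w_ne (i : Fin 4) :
    (![1, ((u ^ 2 - v ^ 2 : ℤ)), -(n * (u ^ 2 - v ^ 2)), -(n : ℤ)] i : ℤ) ≠ 0 := by
  have h1 := n0 D
  have h2 := (uv0 D).2.2
  fin_cases i
  · simp
  · simpa using h2
  · simpa using ⟨by exact_mod_cast h1, h2⟩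
  · simpa using h1

/-- **the lower bound** -/
theorem lower (hH : S_HEN) (hIS : S_IS) (hISQ : S_ISQ) (hILO : S_ILO) (hTR : S_TR)
    (hfin : Finite {x : Sha (WZ (aI n u v) (bI n v)) // ∃ k : ℕ, 2 ^ k • x = 0}) :
    2 ^ nu n u v ≤ 2 ^ ((T u v).card + 2) * md u v *
      Nat.card {x : Sha (WZ (aI n u v) (bI n v)) // ∃ k : ℕ, 2 ^ k • x = 0} := by
  have hcard := hILO n.primeFactors (Q n u v) (R n u v) (md u v)
    (fun p hp => ⟨primeP hp, odd_of D hp⟩) (md_pos D) Qsub Rsub (fun q hq => q_md D hq)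
  have hS : ((Q n u v).powerset.filter fun J => CI 1 n.primeFactors (R n u v) J ∧
    IsSquare ((∏ q ∈ J, q : ℕ) : ZMod (md u v))) = S0 n u v := rfl
  rw [hS] at hcard
  -- the fibres have at most four elements
  let f : Finset ℕ → Sha (WZ (aI n u v) (bI n v)) := fun J =>
    if h : coc (hb D) ((∏ q ∈ J, q : ℕ) : ℤ) ∈ shaCoc (WZ (aI n u v) (bI n v)) then
      cls (WZ (aI n u v) (bI n v)) ⟨_, h⟩ else 0
  have hpr : ∀ J ∈ S0 n u v, ∀ q ∈ J, q.Prime := by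
    intro J hJ q hq
    exact primeP (Qsub (mem_powerset.1 (mem_filter.1 hJ).1 hq))
  have hfib : ∀ y ∈ (S0 n u v).image f, ((S0 n u v).filter fun J => f J = y).card ≤ 4 := by
    intro y hy
    obtain ⟨J0, hJ0, rfl⟩ := mem_image.1 hy
    have hm0 := mem D hH hIS hISQ hJ0
    have key : ∀ J : Finset ℕ, ∃ i : Fin 4, J ∈ (S0 n u v).filter (fun J => f J = f J0) →
        IsSquare ((((∏ q ∈ (J \ J0) ∪ (J0 \ J), q : ℕ) : ℤ) : ℚ) *
      ((![1, ((u ^ 2 - v ^ 2 : ℤ)), -(n * (u ^ 2 - v ^ 2)), -(n : ℤ)] i : ℤ) : ℚ)) := by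
      intro J
      by_cases hJ : J ∈ (S0 n u v).filter (fun J => f J = f J0)
      swap
      · exact ⟨0, fun h => absurd h hJ⟩
      obtain ⟨hJS, hJf⟩ := mem_filter.1 hJ
      have hm := mem D hH hIS hISQ hJS
      simp only [f] at hJf
      rw [dif_pos hm, dif_pos hm0] at hJf
      have h1 := cob_of_eq hJf
      have hps : ∀ q ∈ (J \ J0) ∪ (J0 \ J), q.Prime := by
        intro q hq
        rw [mem_union, mem_sdiff, mem_sdiff] at hq
        rcases hq with hq | hq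
        · exact hpr J hJS q hq.1
        · exact hpr J0 hJ0 q hq.1
      have hpi : ∀ q ∈ J ∩ J0, q.Prime := fun q hq => hpr J hJS q (mem_inter.1 hq).1
      have hx : ∀ (A : Finset ℕ), (∀ q ∈ A, q.Prime) → ((∏ q ∈ A, q : ℕ) : ℤ) ≠ 0 := fun A hA => by
        exact_mod_cast Finset.prod_ne_zero_iff.2 fun q hq => (hA q hq).ne_zero
      have h2 := (cob_sub (a := aI n u v) (hb D) (x := ((∏ q ∈ J, q : ℕ) : ℤ))
        (y := ((∏ q ∈ J0, q : ℕ) : ℤ)) (c := ((∏ q ∈ (J \ J0) ∪ (J0 \ J), q : ℕ) : ℤ))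
        (m := ((∏ q ∈ J ∩ J0, q : ℕ) : ℤ)) (hx J (hpr J hJS)) (hx J0 (hpr J0 hJ0)) (hx _ hpi)
        (by exact_mod_cast prod_symm J J0)).1 h1
      obtain ⟨i, hi⟩ := cob4 D hTR (hx _ hps) h2
      exact ⟨i, fun _ => hi⟩
    choose g hg using key
    have h4 : (univ : Finset (Fin 4)).card = 4 := by simp
    rw [← h4]
    refine card_le_card_of_injOn g (fun _ _ => mem_univ _) ?_
    intro J hJ J' hJ' hgg
    rw [mem_coe] at hJ hJ'
    have e1 := hg J hJ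
    have e2 := hg J' hJ'
    rw [hgg] at e1
    have hps : ∀ {J : Finset ℕ}, J ∈ (S0 n u v).filter (fun J => f J = f J0) →
        ∀ q ∈ (J \ J0) ∪ (J0 \ J), q.Prime := by
      intro J hJ q hq
      rw [mem_union, mem_sdiff, mem_sdiff] at hq
      rcases hq with hq | hq
      · exact hpr J (mem_filter.1 hJ).1 q hq.1
      · exact hpr J0 hJ0 q hq.1
    have hw : (((![1, ((u ^ 2 - v ^ 2 : ℤ)), -(n * (u ^ 2 - v ^ 2)), -(n : ℤ)] (g J') : ℤ)) : ℚ) ≠ 0 := by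
      exact_mod_cast w_ne D (g J')
    have e3 : IsSquare ((((∏ q ∈ (J \ J0) ∪ (J0 \ J), q : ℕ) : ℤ) : ℚ) *
        (((∏ q ∈ (J' \ J0) ∪ (J0 \ J'), q : ℕ) : ℤ) : ℚ)) := by
      have h5 := (e1.mul e2).div (IsSquare.sq
        (((![1, ((u ^ 2 - v ^ 2 : ℤ)), -(n * (u ^ 2 - v ^ 2)), -(n : ℤ)] (g J') : ℤ)) : ℚ))
      refine Eq.subst (motive := fun z => IsSquare z) ?_ h5
      rw [div_eq_iff (pow_ne_zero 2 hw)]
      ring
    have e4 := eq_of_sqZ (Int.squarefree_natCast.2 (sqf_prod (hps hJ)))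
      (Int.squarefree_natCast.2 (sqf_prod (hps hJ'))) e3
    have e5 : ∏ q ∈ (J \ J0) ∪ (J0 \ J), q = ∏ q ∈ (J' \ J0) ∪ (J0 \ J'), q := by exact_mod_cast e4
    have e6 : (J \ J0) ∪ (J0 \ J) = (J' \ J0) ∪ (J0 \ J') := by
      rw [← Nat.primeFactors_prod (hps hJ), ← Nat.primeFactors_prod (hps hJ'), e5]
    ext q
    have e7 := Finset.ext_iff.1 e6 q
    simp only [mem_union, mem_sdiff] at e7
    tauto
  have h1 := card_le_mul_card_image (S0 n u v) 4 hfib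
  -- the image
  have h2 : ((S0 n u v).image f).card ≤
      Nat.card {x : Sha (WZ (aI n u v) (bI n v)) // ∃ k : ℕ, 2 ^ k • x = 0} := by
    have h3 : ∀ y ∈ (S0 n u v).image f, ∃ k : ℕ, 2 ^ k • y = 0 := by
      intro y hy
      obtain ⟨J, hJ, rfl⟩ := mem_image.1 hy
      refine ⟨1, ?_⟩
      have hm := mem D hH hIS hISQ hJ
      simp only [f]
      rw [dif_pos hm, pow_one, two_nsmul, ← cls_add, cls_zero_iff]
      change IsCob (WZ (aI n u v) (bI n v)) (coc (hb D) _ + coc (hb D) _)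
      rw [coc_two]
      exact (cob _).zero_mem
    have h4 : Nat.card ((S0 n u v).image f) ≤
        Nat.card {x : Sha (WZ (aI n u v) (bI n v)) // ∃ k : ℕ, 2 ^ k • x = 0} :=
      Nat.card_le_card_of_injective (fun y => ⟨y.1, h3 y.1 y.2⟩) fun y y' h =>
        Subtype.ext (Subtype.mk.inj h)
    rwa [Nat.card_eq_fintype_card, Fintype.card_coe] at h4
  -- the count
  have h5 : nu n u v + (R n u v).card ≤ (Q n u v).card + (T u v).card := by
    have h6 : n.primeFactors.filter (fun p => ¬ IsSquare ((u ^ 2 - v ^ 2 : ℤ) : ZMod p)) ⊆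
        (Q n u v \ R n u v) ∪ T u v := by
      intro p hp
      obtain ⟨h7, h8⟩ := mem_filter.1 hp
      rw [mem_union]
      by_cases h9 : p ∈ T u v
      · exact Or.inr h9
      · left
        exact mem_sdiff.2 ⟨mem_sdiff.2 ⟨h7, h9⟩, fun h10 => h8 (mem_filter.1 h10).2⟩
    have h7 := (card_le_card h6).trans (card_union_le _ _)
    have h8 := card_sdiff_add_card_eq_card (Rsub (n := n) (u := u) (v := v))
    have h9 : (n.primeFactors.filter
      (fun p => ¬ IsSquare ((u ^ 2 - v ^ 2 : ℤ) : ZMod p))).card = nu n u v := rfl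
    omega
  have h6 : 2 ^ nu n u v * 2 ^ (R n u v).card ≤ 2 ^ (T u v).card * 2 ^ (Q n u v).card := by
    rw [← pow_add, ← pow_add]
    exact Nat.pow_le_pow_right (by norm_num) (by omega)
  have h7 : 0 < 2 ^ (R n u v).card := by positivity
  refine Nat.le_of_mul_le_mul_right (c := 2 ^ (R n u v).card) ?_ h7
  calc 2 ^ nu n u v * 2 ^ (R n u v).card ≤ 2 ^ (T u v).card * 2 ^ (Q n u v).card := h6
    _ ≤ 2 ^ (T u v).card * (md u v * 2 ^ (R n u v).card * (S0 n u v).card) :=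
        Nat.mul_le_mul_left _ hcard
    _ ≤ 2 ^ (T u v).card * (md u v * 2 ^ (R n u v).card * (4 * ((S0 n u v).image f).card)) :=
        Nat.mul_le_mul_left _ (Nat.mul_le_mul_left _ h1)
    _ ≤ 2 ^ (T u v).card * (md u v * 2 ^ (R n u v).card * (4 *
        Nat.card {x : Sha (WZ (aI n u v) (bI n v)) // ∃ k : ℕ, 2 ^ k • x = 0})) :=
        Nat.mul_le_mul_left _ (Nat.mul_le_mul_left _ (Nat.mul_le_mul_left _ h2))
    _ = _ := by ring

end

end Pool.Agent.N818.IL
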