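import Pool.Agent.N818.SN.Gen
import Pool.Agent.N818.IL.Stm

/-!
# IL: the upper bound for the order of the 2-primary part of `Ш`
-/

set_option autoImplicit false
set_option linter.style.haveILetI false

open scoped Classical

namespace Pool.Agent.N818.IL

open Finset WeierstrassCurve
open Pool.Agent.TH841.SH.D
open Pool.Agent.Z702 (LocI WZ coc T0)
open Pool.Agent.N969.P15 (Qc)
open Pool.Agent.N818.SN (LK S_TR cob_sub cob_tor coc_two eq_of_sqZ)
open Pool.Agent.N818.SL (coc_add cls cls_eq cls_add cls_zero_iff prim lcb cob_of_eq sqf_prod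
  ndvd_prod prod_symm)

/-- the hypotheses -/
structure Dat (n : ℕ) (u v : ℤ) : Prop where
  sqf : Squarefree n
  n8 : n % 8 = 3
  qc : Qc n
  bd0 : bd u v ≠ 0
  sha : ∀ x : Sha (WZ (-2 * aI n u v) (aI n u v ^ 2 - 4 * bI n v)), x + x = 0 → x = 0
  four : ∃ k : ℕ, Odd k ∧
    Nat.card (WZ (-2 * aI n u v) (aI n u v ^ 2 - 4 * bI n v)).toAffine.Point = 4 * k

/-- the bad primes -/
def T (u v : ℤ) : Finset ℕ := (bd u v).natAbs.primeFactors

/-- the good primes dividing `n` -/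
def Q (n : ℕ) (u v : ℤ) : Finset ℕ := n.primeFactors \ T u v

/-- the good primes dividing `n` modulo which `u² - v²` is a square -/
noncomputable def R (n : ℕ) (u v : ℤ) : Finset ℕ :=
  (Q n u v).filter fun p => IsSquare ((u ^ 2 - v ^ 2 : ℤ) : ZMod p)

/-- the number of the primes dividing `n` modulo which `u² - v²` is not a square -/
noncomputable def nu (n : ℕ) (u v : ℤ) : ℕ :=
  (n.primeFactors.filter fun p => ¬ IsSquare ((u ^ 2 - v ^ 2 : ℤ) : ZMod p)).card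

section

variable {n : ℕ} {u v : ℤ} (D : Dat n u v)

include D

lemma n0 : (n : ℤ) ≠ 0 := by
  have := D.n8
  have : n ≠ 0 := by omega
  exact_mod_cast this

lemma nsqfZ : Squarefree (n : ℤ) := Int.squarefree_natCast.2 D.sqf

lemma uv0 : u ≠ 0 ∧ v ≠ 0 ∧ u ^ 2 - v ^ 2 ≠ 0 := by
  have h := D.bd0
  unfold bd at h
  refine ⟨?_, ?_, ?_⟩
  · rintro rfl
    exact h (by ring)
  · rintro rfl
    exact h (by ring)
  · intro h1
    exact h (by rw [h1]; ring)

lemma hb : bI n v ≠ 0 := pow_ne_zero 2 (mul_ne_zero (n0 D) (pow_ne_zero 2 (uv0 D).2.1))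

omit D in
lemma ab_eq (n u v : ℤ) : aI n u v ^ 2 - 4 * bI n v = 16 * n ^ 2 * u ^ 2 * (u ^ 2 - v ^ 2) := by
  unfold aI bI
  ring

lemma hab : aI n u v ^ 2 - 4 * bI n v ≠ 0 := by
  rw [ab_eq]
  exact mul_ne_zero (mul_ne_zero (mul_ne_zero (by norm_num) (pow_ne_zero 2 (n0 D)))
    (pow_ne_zero 2 (uv0 D).1)) (uv0 D).2.2

lemma memT {p : ℕ} (hp : p.Prime) : p ∈ T u v ↔ (p : ℤ) ∣ bd u v := by
  unfold T
  rw [Nat.mem_primeFactors]
  have h0 : (bd u v).natAbs ≠ 0 := Int.natAbs_ne_zero.2 D.bd0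
  rw [← Int.natCast_dvd_natCast (m := p), Int.dvd_natAbs]
  tauto

lemma memP {p : ℕ} (hp : p.Prime) : (p : ℤ) ∣ n ↔ p ∈ n.primeFactors := by
  rw [Int.natCast_dvd_natCast, Nat.mem_primeFactors]
  have := D.n8
  have : n ≠ 0 := by omega
  tauto

omit D in
lemma primeP {p : ℕ} (hp : p ∈ n.primeFactors) : p.Prime := Nat.prime_of_mem_primeFactors hp

omit D in
lemma Qsub : Q n u v ⊆ n.primeFactors := sdiff_subset

omit D in
lemma Rsub : R n u v ⊆ Q n u v := filter_subset _ _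

lemma odd_of {p : ℕ} (hp : p ∈ n.primeFactors) : p ≠ 2 := by
  rintro rfl
  have h1 := Nat.dvd_of_mem_primeFactors hp
  have := D.n8
  omega

lemma n_erase {p : ℕ} (hp : p ∈ n.primeFactors) :
    (n : ℤ) = p * ∏ q ∈ n.primeFactors.erase p, (q : ℤ) := by
  rw [Finset.mul_prod_erase _ (fun q : ℕ => (q : ℤ)) hp, ← Nat.cast_prod,
    Nat.prod_primeFactors_of_squarefree D.sqf]

omit D in
lemma card_sdiff_le : (n.primeFactors \ R n u v).card ≤ nu n u v + (T u v).card := by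
  refine le_trans (card_le_card (t := (n.primeFactors.filter fun p =>
    ¬ IsSquare ((u ^ 2 - v ^ 2 : ℤ) : ZMod p)) ∪ T u v) ?_) (card_union_le _ _)
  intro p hp
  obtain ⟨h1, h2⟩ := mem_sdiff.1 hp
  rw [mem_union, mem_filter]
  by_cases h3 : p ∈ T u v
  · exact Or.inr h3
  · left
    refine ⟨h1, fun h4 => h2 ?_⟩
    unfold R Q
    exact mem_filter.2 ⟨mem_sdiff.2 ⟨h1, h3⟩, h4⟩

omit D in
/-- the sign and the bad part -/
def eS (s : Bool × Finset ℕ) : ℤ := (if s.1 then 1 else -1) * ((∏ q ∈ s.2, q : ℕ) : ℤ)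

omit D in
lemma eS_dvd {s : Bool × Finset ℕ} (hs : ∀ q ∈ s.2, q.Prime) {p : ℕ} (hp : p.Prime)
    (h : p ∉ s.2) : ¬ (p : ℤ) ∣ eS s := by
  unfold eS
  have h1 := ndvd_prod hs hp h
  split_ifs
  · rwa [one_mul]
  · rwa [neg_one_mul, dvd_neg]

/-- the number of the triples -/
theorem card_le (hIU : S_IU) :
    (((univ : Finset Bool) ×ˢ (T u v).powerset).sigma fun s =>
      n.primeFactors.powerset.filter fun J => CI (eS s) n.primeFactors (R n u v) J).card ≤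
      2 ^ (nu n u v + 2 * (T u v).card + 2) := by
  rw [card_sigma]
  have h1 : ∀ s ∈ (univ : Finset Bool) ×ˢ (T u v).powerset,
      (n.primeFactors.powerset.filter fun J => CI (eS s) n.primeFactors (R n u v) J).card ≤
        2 ^ (nu n u v + (T u v).card + 1) := by
    intro s hs
    obtain ⟨-, h2⟩ := mem_product.1 hs
    rw [mem_powerset] at h2
    refine (hIU n D.sqf D.n8 D.qc (R n u v) (eS s) (Rsub.trans Qsub) ?_).trans
      (Nat.pow_le_pow_right (by norm_num) (Nat.add_le_add_right card_sdiff_le 1))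
    intro p hp
    have h3 := mem_sdiff.1 (Rsub hp)
    exact eS_dvd (fun q hq => Nat.prime_of_mem_primeFactors (h2 hq)) (primeP h3.1)
      (fun h4 => h3.2 (h2 h4))
  refine (sum_le_card_nsmul _ _ _ h1).trans ?_
  rw [card_product, card_powerset, card_univ, Fintype.card_bool, smul_eq_mul]
  apply le_of_eq
  rw [← pow_succ', ← pow_add]
  congr 1
  ring

/-- the classes -/
theorem surj (hIN : S_IN) (x : Sha (WZ (aI n u v) (bI n v))) (k : ℕ) (hx : (2 ^ k) • x = 0) :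
    ∃ (s : Bool × Finset ℕ) (J : Finset ℕ), s.2 ⊆ T u v ∧ J ⊆ n.primeFactors ∧
      CI (eS s) n.primeFactors (R n u v) J ∧
      ∃ h : coc (hb D) (eS s * ((∏ q ∈ J, q : ℕ) : ℤ)) ∈ shaCoc (WZ (aI n u v) (bI n v)),
        cls (WZ (aI n u v) (bI n v)) ⟨_, h⟩ = x := by
  obtain ⟨d, hd, hc, hx'⟩ := prim (hb D) (hab D) D.sha x k hx
  have hd0 : d ≠ 0 := hd.ne_zero
  have hl : ∀ (p : ℕ) [Fact p.Prime], LK ℚ_[p] (aI n u v) (bI n v) d := fun p _ =>
    lcb _ _ (hb D) d hd0 ℚ_[p] (hc.2.1 p)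
  have gp := fun (p : ℕ) (hp : p.Prime) (hpT : p ∉ T u v) =>
    @hIN p ⟨hp⟩ n u v d (fun h => hpT ((memT D hp).2 h)) (nsqfZ D) hd (@hl p ⟨hp⟩)
  obtain ⟨T', hT'⟩ : ∃ T', T' = (T u v).filter fun q : ℕ => (q : ℤ) ∣ d := ⟨_, rfl⟩
  obtain ⟨J, hJ⟩ : ∃ J, J = (Q n u v).filter fun q : ℕ => (q : ℤ) ∣ d := ⟨_, rfl⟩
  have hT's : T' ⊆ T u v := by
    rw [hT']
    exact filter_subset _ _
  have hJs : J ⊆ Q n u v := by
    rw [hJ]
    exact filter_subset _ _
  have hdis : Disjoint T' J := by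
    rw [disjoint_left]
    intro q h1 h2
    exact (mem_sdiff.1 (hJs h2)).2 (hT's h1)
  have hpf : d.natAbs.primeFactors = T' ∪ J := by
    ext p
    rw [Nat.mem_primeFactors, mem_union, hT', hJ, mem_filter, mem_filter]
    constructor
    · rintro ⟨hp, h1, -⟩
      have h2 : (p : ℤ) ∣ d := Int.natCast_dvd.2 h1
      by_cases h3 : p ∈ T u v
      · exact Or.inl ⟨h3, h2⟩
      · right
        refine ⟨mem_sdiff.2 ⟨?_, h3⟩, h2⟩
        by_contra h4
        exact (gp p hp h3).1 (fun h5 => h4 ((memP D hp).1 h5)) h2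
    · rintro (⟨h1, h2⟩ | ⟨h1, h2⟩)
      · exact ⟨Nat.prime_of_mem_primeFactors h1, Int.natCast_dvd.1 h2,
          Int.natAbs_ne_zero.2 hd0⟩
      · exact ⟨primeP (Qsub h1), Int.natCast_dvd.1 h2, Int.natAbs_ne_zero.2 hd0⟩
  have habs : d.natAbs = (∏ q ∈ T', q) * ∏ q ∈ J, q := by
    rw [← Nat.prod_primeFactors_of_squarefree (Int.squarefree_natAbs.2 hd), hpf,
      prod_union hdis]
  have hdeq : d = eS (decide (0 < d), T') * ((∏ q ∈ J, q : ℕ) : ℤ) := by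
    unfold eS
    have h1 : (d.natAbs : ℤ) = ((∏ q ∈ T', q : ℕ) : ℤ) * ((∏ q ∈ J, q : ℕ) : ℤ) := by
      rw [habs, Nat.cast_mul]
    by_cases h : 0 < d
    · simp only [h, decide_true, if_true, one_mul]
      rw [← h1]
      omega
    · simp only [h, decide_false, Bool.false_eq_true, if_false, neg_one_mul]
      rw [neg_mul, ← h1]
      omega
  have hJd : ∀ p ∈ Q n u v, (p ∈ J ↔ (p : ℤ) ∣ d) := by
    intro p hp
    rw [hJ, mem_filter]
    exact ⟨fun h => h.2, fun h => ⟨hp, h⟩⟩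
  refine ⟨(decide (0 < d), T'), J, hT's, hJs.trans Qsub, ?_, ?_⟩
  · intro p hp
    obtain ⟨hpQ, hpsq⟩ := mem_filter.1 hp
    obtain ⟨hpP, hpT⟩ := mem_sdiff.1 hpQ
    have hpp := primeP hpP
    obtain ⟨h2, h3⟩ := (gp p hpp hpT).2 ((memP D hpp).2 hpP) hpsq
    constructor
    · intro hpJ
      have h4 := h2 fun h => hpJ ((hJd p hpQ).2 h)
      rw [hdeq, Nat.cast_prod] at h4
      exact h4
    · intro hpJ
      refine h3 _ (eS (decide (0 < d), T') * ∏ q ∈ J.erase p, (q : ℤ)) (n_erase D hpP) ?_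
      have h5 : ((∏ q ∈ J, q : ℕ) : ℤ) = p * ∏ q ∈ J.erase p, (q : ℤ) := by
        rw [Finset.mul_prod_erase _ (fun q : ℕ => (q : ℤ)) hpJ, Nat.cast_prod]
      calc d = eS (decide (0 < d), T') * ((∏ q ∈ J, q : ℕ) : ℤ) := hdeq
        _ = _ := by rw [h5]; ring
  · rw [← hdeq]
    exact ⟨hc, hx'⟩

/-- **the upper bound** -/
theorem upper (hIN : S_IN) (hIU : S_IU) :
    Finite {x : Sha (WZ (aI n u v) (bI n v)) // ∃ k : ℕ, 2 ^ k • x = 0} ∧
    Nat.card {x : Sha (WZ (aI n u v) (bI n v)) // ∃ k : ℕ, 2 ^ k • x = 0} ≤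
      2 ^ (nu n u v + 2 * (T u v).card + 2) ∧
    ∀ x : Sha (WZ (aI n u v) (bI n v)), (∃ k : ℕ, 2 ^ k • x = 0) → x + x = 0 := by
  have htwo : ∀ (d : ℤ) (h : coc (hb D) d ∈ shaCoc (WZ (aI n u v) (bI n v))),
      cls (WZ (aI n u v) (bI n v)) ⟨_, h⟩ + cls (WZ (aI n u v) (bI n v)) ⟨_, h⟩ = 0 := by
    intro d h
    rw [← cls_add, cls_zero_iff]
    change IsCob (WZ (aI n u v) (bI n v)) (coc (hb D) d + coc (hb D) d)
    rw [coc_two]
    exact (cob _).zero_mem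
  obtain ⟨Z, hZ⟩ : ∃ Z, Z = ((univ : Finset Bool) ×ˢ (T u v).powerset).sigma fun s =>
      n.primeFactors.powerset.filter fun J => CI (eS s) n.primeFactors (R n u v) J := ⟨_, rfl⟩
  let A := {z : Z // coc (hb D) (eS z.1.1 * ((∏ q ∈ z.1.2, q : ℕ) : ℤ)) ∈
    shaCoc (WZ (aI n u v) (bI n v))}
  let Φ : A → {x : Sha (WZ (aI n u v) (bI n v)) // ∃ k : ℕ, 2 ^ k • x = 0} := fun z =>
    ⟨cls (WZ (aI n u v) (bI n v)) ⟨_, z.2⟩, ⟨1, by rw [pow_one, two_nsmul]; exact htwo _ z.2⟩⟩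
  have hΦ : Function.Surjective Φ := by
    rintro ⟨x, k, hx⟩
    obtain ⟨s, J, h1, h2, h3, h4, h5⟩ := surj D hIN x k hx
    refine ⟨⟨⟨⟨s, J⟩, ?_⟩, h4⟩, Subtype.ext h5⟩
    rw [hZ]
    exact mem_sigma.2 ⟨mem_product.2 ⟨mem_univ _, mem_powerset.2 h1⟩,
      mem_filter.2 ⟨mem_powerset.2 h2, h3⟩⟩
  haveI : Finite A := inferInstance
  refine ⟨Finite.of_surjective Φ hΦ, ?_, ?_⟩
  · have h1 := Nat.card_le_card_of_surjective Φ hΦ
    have h2 : Nat.card A ≤ Nat.card Z := Nat.card_le_card_of_injective _ Subtype.val_injective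
    have h3 : Nat.card Z = Z.card := by
      rw [Nat.card_eq_fintype_card, Fintype.card_coe]
    have h4 := card_le D hIU
    rw [← hZ] at h4
    omega
  · rintro x ⟨k, hx⟩
    obtain ⟨s, J, -, -, -, h4, h5⟩ := surj D hIN x k hx
    rw [← h5]
    exact htwo _ h4

end

end Pool.Agent.N818.IL
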